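import Pool.Agent.W458.MF.Gen10

/-!
# MP_361a6f_ag: the standard conjecture of Hodge type for products of almost all members

Let `Y` be a smooth projective variety over an algebraic closure of a finite field whose
cohomology is spanned by algebraic classes, for example a projective space. Let `F i`, for `i` in a
finite set, be families of varieties `X_s` over `Y`, whose cohomology is the sum of the pull-back
of the cohomology of `Y` and of a subspace `P_s` of the cohomology of degree `dim X_s` (the kernel
of the Gysin map), with large symplectic or orthogonal monodromy.

Then for all `ε > 0` and all large `m`, for all but at most `ε * ∏ i, #S_i(m)` of the tuples `s` in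
the product of the sets `S_i(m)` of the parameters with coordinates in the field with `p ^ m`
elements, the following holds for all (ample) divisors `D i` on the members `X_{i, s_i}`: the
standard conjecture of Hodge type holds, in all codimensions, for **all products** of the members
`X_{i, s_i}`, with any number of factors, and with the sum of the pull-backs of the divisors.

The conjecture is assumed for the members only for the cycles whose classes are pull-backs of
classes on `Y` (for hypersurface sections of a projective space these are the multiples of the
powers of the class of a hyperplane, and nothing is assumed). Only if the member has a forced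
eigenvalue `± q ^ (n / 2)` of the Frobenius endomorphism, are the conjecture of Hodge type and
the Tate conjecture in the middle codimension assumed for the member.
-/

open CategoryTheory AlgebraicGeometry Polynomial

universe u v

namespace Pool.Agent.Results.MP_361a6f_ag.AlmostAllProducts

open Pool.Agent.H914 Pool.Agent.W534 Pool.Agent.W458.MF VarClass Obj WeilCohomology
  Pool.Agent.H281R3.HT Pool.Agent.W458.MF.Pol

/-- **The standard conjecture of Hodge type for all products of almost all members of families
with large monodromy.** -/
theorem result {k : Type u} [Field k] {𝒱 : VarClass k} {ops : CycleOps 𝒱}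
    (W : WeilCohomology.{u, v} ops) [IsAlgClosed W.K] (σ : W.K →+* ℂ) (p : ℕ)
    (hp : p.Prime) (Φ : FrobSystem W p) (Y : 𝒱.Obj) (hY : ∀ x : W.H Y, x ∈ algSpan W Y)
    {I : Type} [Fintype I] (F : I → Family W Y) (e : I → ℕ)
    (hF : ∀ i, HasLargeMonodromy (F i) Φ (e i)) (ε : ℝ) (hε : 0 < ε) :
    ∃ m₀ : ℕ, ∀ m ≥ m₀, ({s : ∀ i, (F i).S m |
        ¬ ∀ D : ∀ i, ((F i).member m (s i)).obj.Cycles,
          (∀ i, IsPolarization ((F i).member m (s i)) Φ m (e i) (D i)) →
            HodgeTypeForProducts W fun i => ⟨((F i).member m (s i)).obj, D i⟩}.ncard : ℝ) ≤
      ε * ∏ i, (Nat.card ((F i).S m) : ℝ) :=
  final_hodge W σ p hp Φ Y hY F e hF ε hε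

end Pool.Agent.Results.MP_361a6f_ag.AlmostAllProducts
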