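import Pool.Agent.W498.Hdg.Final

/-!
# The standard conjecture of Hodge type descends along dominant morphisms

Let `f : Y ⟶ X` be a morphism of smooth projective varieties over an algebraically closed field of
any characteristic, which is dominant (the direct image of some cycle on `Y` with rational
coefficients is the fundamental cycle of `X`), of any relative dimension. Let `W` be a Weil
cohomology theory for which the decomposition theorem and the relative hard Lefschetz theorem hold
for `f`, a divisor `D` on `X` and a divisor `E` on `Y` (in the `ℓ`-adic theory, for `D` ample and
`E` relatively ample, this is a theorem of Beilinson, Bernstein, Deligne and Gabber). Put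
`L_t = f^* D + t E`, a divisor which is ample for all small `t > 0`. Assume the conjecture `A` of
Lefschetz type for `(Y, L_t)`, `t` small; it is implied by the conjecture `B` for `Y`.

(1) For every codimension `j`, the negative index of the form `(-1) ^ j z · w · D ^ (n - 2 j)` on
the primitive algebraic classes of `X` is at most the negative index of the corresponding form on
the primitive algebraic classes of `(Y, L_t)`, `t` small. No case of the conjecture of Hodge type is
assumed.

(2) If homological and numerical equivalence agree on `Y`, they agree on `X`, and in every
codimension `j` the conjecture of Hodge type for `(Y, L_t)`, `t` small, implies the conjecture of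
Hodge type for `(X, D)`.

(3) The conjecture of Hodge type for `(Y, L_t)`, `t` small, implies the conjecture of Hodge type
for `(X, D)`, and that homological and numerical equivalence agree on `X`.

Proof. Let `x` be a primitive class on `X`. The inverse image `f^* x` is not primitive for `L_t`,
and `f^* D` does not satisfy hard Lefschetz on `Y`, so one cannot let `t` tend to zero directly.
Write `t = s ^ 2` and rescale the perverse piece of index `p` by `s ^ p`. The rescaled operators
converge to an operator which satisfies hard Lefschetz by the decomposition theorem and the
relative hard Lefschetz theorem, and for which `f^* x` is primitive. So the primitive component of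
`f^* x` for `L_t`, which is algebraic by the conjecture `A`, is `f^* x - L_t b_t` where the
coordinates of the rescaled `b_t` are rational functions of `s` over the coefficient field, without
pole and with value zero at `s = 0`. Therefore `t ^ (-r)` times the Hodge form on `Y` converges to
a positive multiple of the Hodge form on `X`. All numbers compared are rational, a `ℚ`-linear
retraction of the coefficient field onto `ℚ` turns the identities over the coefficient field into
identities of rational functions over `ℚ`, and `s` tends to zero in `ℚ`.
-/

open Pool.Agent.H914 Pool.Agent.W498.Dom Pool.Agent.W498.Hdg

universe u v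

namespace Pool.Agent.Results.MP_361a6f_ag.DominantImages

/-- **The standard conjecture of Hodge type and dominant morphisms.** -/
theorem result {k : Type u} [Field k] [IsAlgClosed k] {𝒱 : VarClass k} {ops : CycleOps 𝒱}
    (W : WeilCohomology.{u, v} ops) (Y X : 𝒱.Obj) (f : Y ⟶ X) (hf : IsDominant ops f)
    (D : X.Cycles) (hD : X.IsCyc 1 D) (hX : HardLefschetz W X D)
    (hdeg : 0 < X.V.degCycle (divPow ops D X.dim X.V.fundCycle))
    (E : Y.Cycles) (hE : Y.IsCyc 1 E) (Q : PerverseDecomposition W f D E)
    (hpos : ForSmall fun t =>
      0 < Y.V.degCycle (divPow ops (pencil ops f D E t) Y.dim Y.V.fundCycle))
    (hA : ForSmall fun t => LefschetzA W Y (pencil ops f D E t)) :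
    (∀ j N, (ForSmall fun t => NegIndexLE W Y (pencil ops f D E t) j N) →
        NegIndexLE W X D j N) ∧
      (HomEqNum W Y → HomEqNum W X ∧
        ∀ j, (ForSmall fun t => HodgeTypeIn W Y (pencil ops f D E t) j) →
          HodgeTypeIn W X D j) ∧
      ((ForSmall fun t => HodgeType W Y (pencil ops f D E t)) →
        HomEqNum W X ∧ HodgeType W X D) :=
  hodge_of_dominant Q hD hE hX hdeg hf hA hpos

end Pool.Agent.Results.MP_361a6f_ag.DominantImages
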