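import Pool.Agent.W539.Sig.Geo2

open CategoryTheory AlgebraicGeometry

universe u v

namespace Pool.Agent.Results.MP_361a6f_ag.HodgeHalfPositive

open Pool.Agent.H914 Pool.Agent.H914.VarClass Pool.Agent.H914.VarClass.Obj

/-- The cycle `z` on `X × X` has the middle codimension `n = dim X`, and its class is primitive
for the divisor `D × X + X × D`. -/
def PrimitiveMiddle {k : Type u} [Field k] {𝒱 : VarClass k} {ops : CycleOps 𝒱}
    (W : WeilCohomology.{u, v} ops) (X : 𝒱.Obj) (D : X.Cycles) (z : (X.prod X).Cycles) : Prop :=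
  (X.prod X).IsCyc X.dim z ∧ W.cl (X.prod X) (ops.mul (boxSum ops D) z) = 0

/-- The form of the standard conjecture of Hodge type in the middle codimension of `X × X`:
`(-1) ^ n` times the intersection number, where `n = dim X`. -/
noncomputable def hodgeForm {k : Type u} [Field k] {𝒱 : VarClass k} (ops : CycleOps 𝒱)
    (X : 𝒱.Obj) (z w : (X.prod X).Cycles) : ℚ :=
  (-1 : ℚ) ^ X.dim * (X.prod X).V.degCycle (ops.mul z w)

/-- **The form of the standard conjecture of Hodge type on the primitive algebraic classes of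
the middle codimension of `X × X` has nonnegative signature, if the Kunneth projectors of `X`
are algebraic:** to any `r` pairwise orthogonal primitive algebraic cycles with negative squares
there are `r` pairwise orthogonal primitive algebraic cycles with positive squares. -/
theorem result {k : Type u} [Field k] {𝒱 : VarClass k} {ops : CycleOps 𝒱}
    (W : WeilCohomology.{u, v} ops) (X : 𝒱.Obj) (D : X.Cycles) (hD : X.IsCyc 1 D)
    (hK : KunnethStd W X) (r : ℕ) (z : Fin r → (X.prod X).Cycles)
    (hz : ∀ i, PrimitiveMiddle W X D (z i)) (hneg : ∀ i, hodgeForm ops X (z i) (z i) < 0)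
    (horth : ∀ i j, i ≠ j → hodgeForm ops X (z i) (z j) = 0) :
    ∃ w : Fin r → (X.prod X).Cycles, (∀ i, PrimitiveMiddle W X D (w i)) ∧
      (∀ i, 0 < hodgeForm ops X (w i) (w i)) ∧
      ∀ i j, i ≠ j → hodgeForm ops X (w i) (w j) = 0 := by
  obtain ⟨w, hw, hw0⟩ := Pool.Agent.W539.Sig.half_positive hD hK z (fun i => (hz i).1)
    (fun i => (hz i).2) hneg (fun i j hij =>
      (mul_eq_zero.1 (horth i j hij)).resolve_left (pow_ne_zero _ (by norm_num)))
  exact ⟨w, fun i => ⟨(hw i).1, (hw i).2.1⟩, fun i => (hw i).2.2, fun i j hij => by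
    rw [hodgeForm, hw0 i j hij, mul_zero]⟩

end Pool.Agent.Results.MP_361a6f_ag.HodgeHalfPositive
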