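import Pool.Agent.W552.SsMain

open CategoryTheory AlgebraicGeometry

universe u v w

namespace Pool.Agent.Results.MP_361a6f_ag.SupersingularFactors

open Pool.Agent.H914 Pool.Agent.H914.VarClass Pool.Agent.H914.VarClass.Obj
  Pool.Agent.H281R3.HT Pool.Agent.W552

/-- **Supersingular factors**: let `E` and `Y` be polarized varieties (for example a supersingular
elliptic curve and an arbitrary surface) and let `Z` be a family of polarized varieties which are
supersingular relative to `E` (for example supersingular curves and surfaces), where `E` has
transcendental cohomology. If the Lefschetz standard conjecture and the standard conjecture of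
Hodge type hold for `E`, for `Y` and for the `Z s`, and the latter also for `E × Y` and the
`E × Z s` (which is known if these varieties are of dimension at most three), then the standard
conjectures of Hodge type and `D` hold for the product `Y × V` of `Y` with any product `V` of
arbitrarily many members of the family and for all varieties covered by `Y × V`. -/
theorem result {k : Type u} [Field k] {𝒱 : VarClass k} {ops : CycleOps 𝒱}
    (W : WeilCohomology.{u, v} ops) {E Y : Polarized 𝒱} {ι : Type w} {Z : ι → Polarized 𝒱}
    (hE : Std W E) (hE0 : transcendental W E.X ≠ ⊥) (hY : Std W Y)
    (hEY : HodgeType W (E.prod ops Y).X (E.prod ops Y).D)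
    (hZ : ∀ s, SupersingularFor W E (Z s)) {V : Polarized 𝒱} (hV : IsProduct ops Z V)
    {X : Polarized 𝒱} (hX : Covers W (Y.prod ops V) X) (hD : X.X.IsCyc 1 X.D) :
    HodgeAndD W X :=
  ss_covers hE hE0 hY hEY hZ hV hX hD

end Pool.Agent.Results.MP_361a6f_ag.SupersingularFactors
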