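import Pool.Agent.W552.TautConv

open CategoryTheory AlgebraicGeometry

universe u v

namespace Pool.Agent.Results.MP_361a6f_ag.TautologicalClasses

open Pool.Agent.H914 Pool.Agent.H914.VarClass Pool.Agent.H914.VarClass.Obj
  Pool.Agent.H281R3.HT Pool.Agent.W552

/-- **The standard conjectures of Hodge type and `D` for the tautological classes on the powers of
a variety over a finite field**: let `P` be a polarized variety satisfying the hard Lefschetz
theorem, the Lefschetz standard conjecture and the Riemann hypothesis for its Frobenius
endomorphism `f`, which acts semisimply on the cohomology, and let `G` be a group of algebraic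
similitudes of the cohomology of `P` which contains `f^*` as a central element generating a
subgroup of finite index. Then the two conjectures hold on all the powers of `P` for all cycles
whose class is a linear combination of exterior products of powers of the class of the divisor on
factors and of tautological classes on pairs of factors. -/
theorem result {k : Type u} [Field k] {𝒱 : VarClass k} {ops : CycleOps 𝒱}
    (W : WeilCohomology.{u, v} ops) (P : Polarized 𝒱) (f : P.X ⟶ P.X) (q : ℕ)
    (hD : P.X.IsCyc 1 P.D)
    (hdeg : 0 < P.X.V.degCycle (divPow ops P.D P.X.dim P.X.V.fundCycle))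
    (hHL : HardLefschetz W P.X P.D) (hB : LefschetzB W P.X P.D)
    (hf : EigenSpan (W.map f).toLinearMap) (hRH : RiemannHypothesis W P.X f q)
    (A : FrobSim W P f q) (n : ℕ) :
    HodgeTypeFor W (nest ops n (fun _ => P)).X (nest ops n (fun _ => P)).D (A.InTautSpan n) ∧
      HomEqNumFor W (nest ops n (fun _ => P)).X (A.InTautSpan n) :=
  hodge_taut' hD hdeg hHL hB hf hRH A n

end Pool.Agent.Results.MP_361a6f_ag.TautologicalClasses
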